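import Pool.Agent.Lib.MP_1a91b9_nuT.S5.Defs

/-!
# JOB S5-Places: basic facts on places in an extension `L / K` of number fields

Mathlib: `HeightOneSpectrum.valuation_liesOver` (in `NumberTheory/RamificationInertia/Valuation`),
`Ideal.IsDedekindDomain.ramificationIdx'_ne_zero_of_liesOver`,
`Ideal.exists_maximal_ideal_liesOver_of_isIntegral`,
`ramificationIdx'_eq_ramificationIdx'`, `Ideal.sum_ramification_inertia`
(`NumberTheory/RamificationInertia/Basic`, deprecated but usable) or
`Ideal.sum_ramification_inertia_eq_finrank` (`RingTheory/RamificationInertia/Basic`).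
See also Pool/Agent/Lib/MP_1a91b9_nt/S4Place.lean, QuadField.lean for examples.
-/

set_option autoImplicit false

namespace Pool.Agent.Lib.MP_1a91b9_nuT.S5

open IsDedekindDomain NumberField WithZero Module

variable (K : Type*) {L : Type*} [Field K] [NumberField K] [Field L] [NumberField L] [Algebra K L]

private theorem PL_over (w : HeightOneSpectrum (𝓞 L)) : w.asIdeal.LiesOver (below K w).asIdeal :=
  ⟨rfl⟩

theorem mem_below (w : HeightOneSpectrum (𝓞 L)) (x : 𝓞 K) :
    x ∈ (below K w).asIdeal ↔ algebraMap (𝓞 K) (𝓞 L) x ∈ w.asIdeal := by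
  exact Iff.rfl

theorem val_below (w : HeightOneSpectrum (𝓞 L)) (x : K) :
    w.valuation L (algebraMap K L x) = (below K w).valuation K x ^ ram K w := by
  have := PL_over K w
  exact (HeightOneSpectrum.valuation_liesOver L (below K w) w x).symm

theorem ram_pos (w : HeightOneSpectrum (𝓞 L)) : 0 < ram K w := by
  have := PL_over K w
  exact Nat.pos_of_ne_zero
    (Ideal.IsDedekindDomain.ramificationIdx'_ne_zero_of_liesOver w.asIdeal (below K w).ne_bot)

theorem exists_above (L : Type*) [Field L] [NumberField L] [Algebra K L]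
    (v : HeightOneSpectrum (𝓞 K)) : ∃ w : HeightOneSpectrum (𝓞 L), below K w = v := by
  have : v.asIdeal.IsMaximal := v.isMaximal
  obtain ⟨Q, hQm, hQ⟩ := Ideal.exists_maximal_ideal_liesOver_of_isIntegral (S := 𝓞 L) v.asIdeal
  have hne : Q ≠ ⊥ := Ideal.ne_bot_of_liesOver_of_ne_bot v.ne_bot Q
  refine ⟨⟨Q, hQm.isPrime, hne⟩, ?_⟩
  apply HeightOneSpectrum.ext
  exact hQ.over.symm


theorem below_below (K : Type*) {L M : Type*} [Field K] [NumberField K] [Field L] [NumberField L]
    [Field M] [NumberField M] [Algebra K L] [Algebra K M] [Algebra L M] [IsScalarTower K L M]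
    (w : HeightOneSpectrum (𝓞 M)) : below K (below L w) = below K w := by
  apply HeightOneSpectrum.ext
  ext x
  rw [mem_below, mem_below, mem_below]
  have h : algebraMap (𝓞 L) (𝓞 M) (algebraMap (𝓞 K) (𝓞 L) x) = algebraMap (𝓞 K) (𝓞 M) x := by
    apply RingOfIntegers.ext
    exact (IsScalarTower.algebraMap_apply K L M (x : K)).symm
  rw [h]

end Pool.Agent.Lib.MP_1a91b9_nuT.S5
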