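import Mathlib

/-!
# 2-descent along a tower: definitions

Stream S5 of the project MP_1a91b9_nt (tower). All fields are number fields, places are elements
of `HeightOneSpectrum (𝓞 K)`, with values in `ℤᵐ⁰` (multiplicative notation: `exp (-n)` is the
value of an element of order `n`).
-/

set_option autoImplicit false

namespace Pool.Agent.Lib.MP_1a91b9_nuT.S5

open IsDedekindDomain NumberField WithZero Module

universe u


/-- The place of `K` below the place `w` of `L`. -/
noncomputable def below (K : Type*) {L : Type*} [Field K] [NumberField K] [Field L] [NumberField L]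
    [Algebra K L] (w : HeightOneSpectrum (𝓞 L)) : HeightOneSpectrum (𝓞 K) where
  asIdeal := w.asIdeal.under (𝓞 K)
  isPrime := inferInstance
  ne_bot := fun h => w.ne_bot (Ideal.eq_bot_of_comap_eq_bot h)

/-- The ramification index of `w` over `K`. -/
noncomputable def ram (K : Type*) {L : Type*} [Field K] [NumberField K] [Field L] [NumberField L]
    [Algebra K L] (w : HeightOneSpectrum (𝓞 L)) : ℕ :=
  (below K w).asIdeal.ramificationIdx' w.asIdeal


end Pool.Agent.Lib.MP_1a91b9_nuT.S5
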